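import Pool.Agent.TH642.Enum235

/-!
# Only `A_5` is a quotient of the `(2,3,5)` triangle group

For `p, q, r = 2, 3, 5` and the trivial commutator word the only admissible degree is `5`.
-/

namespace Pool.Agent.Results.MP_73c65d_al.OnlyFive

open Pool.Agent.TH642 Equiv

/-- `n` is admissible for `p, q, r, u`: there are elements `ξ, η, ζ` generating the alternating
group of degree `n ≥ 3` with `ξ ^ p = η ^ q = ζ ^ r = ξ η ζ u(ξ, η, ζ) = 1`. -/
def Admissible (p q r : ℕ) (u : FreeGroup (Fin 3)) (n : ℕ) : Prop :=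
  3 ≤ n ∧ ∃ ξ η ζ : alternatingGroup (Fin n), Subgroup.closure {ξ, η, ζ} = ⊤ ∧
    ξ ^ p = 1 ∧ η ^ q = 1 ∧ ζ ^ r = 1 ∧ ξ * η * ζ * FreeGroup.lift ![ξ, η, ζ] u = 1

lemma card_le {G : Type*} [Group G] [Finite G] {ξ η ζ : G}
    (hcl : Subgroup.closure {ξ, η, ζ} = ⊤) (h2 : ξ ^ 2 = 1) (h3 : η ^ 3 = 1) (h5 : ζ ^ 5 = 1)
    (h : ξ * η * ζ = 1) : Nat.card G ≤ 60 := by
  have hx : ξ * ξ = 1 := by rw [← sq]; exact h2
  have hy : η * η * η = 1 := by rw [← h3, pow_succ, sq]
  have hz : ζ = (ξ * η)⁻¹ := eq_inv_of_mul_eq_one_right h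
  have hz' : ζ⁻¹ = ξ * η := by rw [hz, inv_inv]
  have hp : (ξ * η) ^ 5 = 1 := by
    rw [← hz', inv_pow, h5, inv_one]
  have hw : ∀ w : G, w * ξ * η * ξ * η * ξ * η * ξ * η * ξ * η = w := by
    intro w
    calc w * ξ * η * ξ * η * ξ * η * ξ * η * ξ * η = w * (ξ * η) ^ 5 := by
          simp only [pow_succ, pow_zero, one_mul, mul_assoc]
      _ = w := by rw [hp, mul_one]
  obtain ⟨f, ⟨i₀, hi₀⟩, hf⟩ := enum235 ξ η hx hy hw
  have hX : ∀ g ∈ Set.range f, g * ξ ∈ Set.range f := by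
    rintro _ ⟨i, rfl⟩
    obtain ⟨j, hj⟩ := (hf i).1
    exact ⟨j, hj⟩
  have hY : ∀ g ∈ Set.range f, g * η ∈ Set.range f := by
    rintro _ ⟨i, rfl⟩
    obtain ⟨j, hj⟩ := (hf i).2
    exact ⟨j, hj⟩
  have hxi : ξ⁻¹ = ξ := inv_eq_of_mul_eq_one_left hx
  have hyi : η⁻¹ = η * η := by
    apply inv_eq_of_mul_eq_one_left
    exact hy
  have hsurj : ∀ g : G, g ∈ Set.range f := by
    intro g
    have hg : g ∈ Subgroup.closure ({ξ, η, ζ} : Set G) := by rw [hcl]; exact Subgroup.mem_top g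
    refine Subgroup.closure_induction_right (p := fun g _ => g ∈ Set.range f) ⟨i₀, hi₀⟩ ?_ ?_ hg
    · rintro a - b hb ha
      rcases hb with rfl | rfl | rfl
      · exact hX _ ha
      · exact hY _ ha
      · rw [hz, mul_inv_rev, hyi, hxi, ← mul_assoc, ← mul_assoc]
        exact hX _ (hY _ (hY _ ha))
    · rintro a - b hb ha
      rcases hb with rfl | rfl | rfl
      · rw [hxi]; exact hX _ ha
      · rw [hyi, ← mul_assoc]; exact hY _ (hY _ ha)
      · rw [hz', ← mul_assoc]; exact hY _ (hX _ ha)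
  have hs : Function.Surjective f := hsurj
  have := Nat.card_le_card_of_surjective f hs
  simpa using this

lemma sgn (a b c d : Fin 5) (h1 : a ≠ b) (h2 : c ≠ d) :
    swap a b * swap c d ∈ alternatingGroup (Fin 5) := by
  rw [Equiv.Perm.mem_alternatingGroup, map_mul, Equiv.Perm.sign_swap h1, Equiv.Perm.sign_swap h2]
  rfl

/-- an involution -/
def ξ₅ : alternatingGroup (Fin 5) := ⟨swap 1 2 * swap 3 4, sgn _ _ _ _ (by decide) (by decide)⟩
/-- an element of order three -/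
def η₅ : alternatingGroup (Fin 5) := ⟨swap 0 1 * swap 1 3, sgn _ _ _ _ (by decide) (by decide)⟩
/-- an element of order five -/
def ζ₅ : alternatingGroup (Fin 5) := (ξ₅ * η₅)⁻¹

lemma ξ₅_sq : ξ₅ ^ 2 = 1 := by
  apply Subtype.ext
  change (swap 1 2 * swap 3 4 : Perm (Fin 5)) ^ 2 = 1
  decide

lemma η₅_cube : η₅ ^ 3 = 1 := by
  apply Subtype.ext
  change (swap 0 1 * swap 1 3 : Perm (Fin 5)) ^ 3 = 1
  decide

lemma ζ₅_pow : ζ₅ ^ 5 = 1 := by
  apply Subtype.ext
  change ((swap 1 2 * swap 3 4 * (swap 0 1 * swap 1 3))⁻¹ : Perm (Fin 5)) ^ 5 = 1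
  decide

lemma ξ₅_ne : ξ₅ ≠ 1 := by
  intro h
  have h1 := congrArg (fun g : alternatingGroup (Fin 5) => (g : Perm (Fin 5)) 1) h
  revert h1
  change ¬ ((swap 1 2 * swap 3 4 : Perm (Fin 5)) 1 = 1)
  decide

lemma η₅_ne : η₅ ≠ 1 := by
  intro h
  have h1 := congrArg (fun g : alternatingGroup (Fin 5) => (g : Perm (Fin 5)) 1) h
  revert h1
  change ¬ ((swap 0 1 * swap 1 3 : Perm (Fin 5)) 1 = 1)
  decide

lemma ζ₅_ne : ζ₅ ≠ 1 := by
  intro h
  have h1 := congrArg (fun g : alternatingGroup (Fin 5) => (g : Perm (Fin 5)) 1) h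
  revert h1
  change ¬ (((swap 1 2 * swap 3 4 * (swap 0 1 * swap 1 3))⁻¹ : Perm (Fin 5)) 1 = 1)
  decide

lemma card_A (n : ℕ) (hn : 2 ≤ n) : 2 * Nat.card (alternatingGroup (Fin n)) = n.factorial := by
  have : Nontrivial (Fin n) := Fin.nontrivial_iff_two_le.2 hn
  rw [two_mul_nat_card_alternatingGroup, Nat.card_perm, Nat.card_eq_fintype_card, Fintype.card_fin]

lemma closure_five : Subgroup.closure ({ξ₅, η₅, ζ₅} : Set (alternatingGroup (Fin 5))) = ⊤ := by
  set H := Subgroup.closure ({ξ₅, η₅, ζ₅} : Set (alternatingGroup (Fin 5))) with hH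
  have m1 : ξ₅ ∈ H := Subgroup.subset_closure (by simp)
  have m2 : η₅ ∈ H := Subgroup.subset_closure (by simp)
  have m3 : ζ₅ ∈ H := Subgroup.subset_closure (by simp)
  have o : ∀ (g : alternatingGroup (Fin 5)) (p : ℕ), p.Prime → g ∈ H → g ^ p = 1 → g ≠ 1 →
      p ∣ Nat.card H := by
    intro g p hp hg h1 h2
    have : orderOf (⟨g, hg⟩ : H) = p := by
      have := Fact.mk hp
      apply orderOf_eq_prime
      · exact Subtype.ext h1
      · intro h
        exact h2 (congrArg Subtype.val h)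
    rw [← this]
    exact orderOf_dvd_natCard _
  have d2 := o ξ₅ 2 Nat.prime_two m1 ξ₅_sq ξ₅_ne
  have d3 := o η₅ 3 Nat.prime_three m2 η₅_cube η₅_ne
  have d5 := o ζ₅ 5 Nat.prime_five m3 ζ₅_pow ζ₅_ne
  have hc : Nat.card (alternatingGroup (Fin 5)) = 60 := by
    have := card_A 5 (by norm_num)
    have h5 : Nat.factorial 5 = 120 := rfl
    omega
  have hi := H.card_mul_index
  rw [hc] at hi
  have d30 : 30 ∣ Nat.card H := by
    have h6 : 2 * 3 ∣ Nat.card H := Nat.Coprime.mul_dvd_of_dvd_of_dvd (by norm_num) d2 d3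
    exact Nat.Coprime.mul_dvd_of_dvd_of_dvd (by norm_num : Nat.Coprime (2 * 3) 5) h6 d5
  obtain ⟨k, hk⟩ := d30
  have hk2 : k * H.index = 2 := by
    rw [hk] at hi
    have : 30 * (k * H.index) = 30 * 2 := by rw [← mul_assoc]; exact hi
    exact Nat.eq_of_mul_eq_mul_left (by norm_num) this
  have hidx : H.index = 1 ∨ H.index = 2 := by
    have : H.index ∣ 2 := ⟨k, by rw [← hk2, mul_comm]⟩
    exact (Nat.dvd_prime Nat.prime_two).1 this
  rcases hidx with h | h
  · exact Subgroup.index_eq_one.1 h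
  · have hn : H.Normal := Subgroup.normal_of_index_eq_two h
    rcases hn.eq_bot_or_eq_top with hb | ht
    · exfalso
      rw [hb] at m1
      exact ξ₅_ne (Subgroup.mem_bot.1 m1)
    · exact ht

lemma admissible_five : Admissible 2 3 5 1 5 := by
  refine ⟨by norm_num, ξ₅, η₅, ζ₅, closure_five, ξ₅_sq, η₅_cube, ζ₅_pow, ?_⟩
  rw [map_one, mul_one, ζ₅, mul_inv_cancel]

lemma eq_five {n : ℕ} (h : Admissible 2 3 5 1 n) : n = 5 := by
  obtain ⟨hn, ξ, η, ζ, hcl, h2, h3, h5, h⟩ := h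
  rw [map_one, mul_one] at h
  have hc := card_A n (by omega)
  have hle := card_le hcl h2 h3 h5 h
  have hn5 : n ≤ 5 := by
    by_contra hlt
    have h6 : Nat.factorial 6 ≤ n.factorial := Nat.factorial_le (by omega)
    have h720 : Nat.factorial 6 = 720 := rfl
    omega
  by_contra hne
  have hlt : n = 3 ∨ n = 4 := by omega
  have hcop : Nat.Coprime 5 (Nat.card (alternatingGroup (Fin n))) := by
    rcases hlt with rfl | rfl
    · have : Nat.card (alternatingGroup (Fin 3)) = 3 := by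
        have h6 : Nat.factorial 3 = 6 := rfl
        omega
      rw [this]; norm_num
    · have : Nat.card (alternatingGroup (Fin 4)) = 12 := by
        have h6 : Nat.factorial 4 = 24 := rfl
        omega
      rw [this]; norm_num
  have hζ : ζ = 1 := by
    have d1 : orderOf ζ ∣ 5 := orderOf_dvd_of_pow_eq_one h5
    have d2 : orderOf ζ ∣ Nat.card (alternatingGroup (Fin n)) := orderOf_dvd_natCard _
    have d3 := Nat.dvd_gcd d1 d2
    rw [hcop] at d3
    exact orderOf_eq_one_iff.1 (Nat.dvd_one.1 d3)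
  rw [hζ, mul_one] at h
  have hη : η = ξ⁻¹ := eq_inv_of_mul_eq_one_right h
  have hξ : ξ = 1 := by
    have e1 : ξ ^ 3 = 1 := by
      rw [hη, inv_pow, inv_eq_one] at h3
      exact h3
    have : ξ ^ 3 = ξ ^ 2 * ξ := pow_succ ξ 2
    rw [e1, h2, one_mul] at this
    exact this.symm
  rw [hξ, inv_one] at hη
  rw [hξ, hη, hζ] at hcl
  have : (⊤ : Subgroup (alternatingGroup (Fin n))) = ⊥ := by
    rw [← hcl]
    simp
  have h1 : Nat.card (⊤ : Subgroup (alternatingGroup (Fin n))) = 1 := by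
    rw [this]; simp
  rw [Subgroup.card_top] at h1
  have h6 : Nat.factorial 3 ≤ n.factorial := Nat.factorial_le hn
  have h7 : Nat.factorial 3 = 6 := rfl
  omega

/-- **Main result.** There are distinct primes `p, q, r` and a commutator word `u` for which
exactly one `n`, namely `n = 5`, is admissible: `p, q, r = 2, 3, 5` and `u = 1`. -/
theorem result : ∃ (p q r : ℕ) (u : FreeGroup (Fin 3)), p.Prime ∧ q.Prime ∧ r.Prime ∧
    p ≠ q ∧ p ≠ r ∧ q ≠ r ∧ u ∈ commutator (FreeGroup (Fin 3)) ∧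
    {n | Admissible p q r u n} = {5} := by
  refine ⟨2, 3, 5, 1, Nat.prime_two, Nat.prime_three, Nat.prime_five, by norm_num, by norm_num,
    by norm_num, Subgroup.one_mem _, ?_⟩
  ext n
  constructor
  · intro h
    exact eq_five h
  · rintro rfl
    exact admissible_five

end Pool.Agent.Results.MP_73c65d_al.OnlyFive
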